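import Mathlib
import Pool.Agent.Y973.RM.Main

set_option autoImplicit false

namespace Pool.Agent.Results.MP_f804be_nt.HereditaryRemovable

/-- `n` lies in the `h`-fold sumset `hA`: it is a sum of `h` elements of `A`, repetitions
allowed. -/
def InSumset (A : Set ℕ) (h n : ℕ) : Prop :=
  ∃ f : Fin h → ℕ, (∀ i, f i ∈ A) ∧ ∑ i, f i = n

/-- `A` is an asymptotic basis of order `h`: only finitely many natural numbers are not in
`hA`. -/
def IsAsymptoticBasis (h : ℕ) (A : Set ℕ) : Prop :=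
  {n : ℕ | ¬ InSumset A h n}.Finite

lemma mono {h : ℕ} {A B : Set ℕ} (hAB : A ⊆ B) (hA : IsAsymptoticBasis h A) :
    IsAsymptoticBasis h B := by
  refine hA.subset ?_
  intro n hn hnA
  obtain ⟨f, hf, hs⟩ := hnA
  exact hn ⟨f, fun i => hAB (hf i), hs⟩

lemma iff_lib (h : ℕ) (A : Set ℕ) :
    IsAsymptoticBasis h A ↔ Pool.Agent.Y973.RM.IsAsymptoticBasis h A := Iff.rfl

/-- the complement in the range, as an image -/
lemma set_eq (a : ℕ → ℕ) (ha : StrictMono a) (I : Set ℕ) :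
    {x | ∃ i, i ∉ I ∧ a i = x} = Set.range a \ a '' I := by
  ext x
  constructor
  · rintro ⟨i, hi, rfl⟩
    refine ⟨⟨i, rfl⟩, ?_⟩
    rintro ⟨j, hj, hji⟩
    exact hi (ha.injective hji ▸ hj)
  · rintro ⟨⟨i, rfl⟩, hi⟩
    exact ⟨i, fun h => hi ⟨i, h, rfl⟩, rfl⟩

/-- Let `h ≥ 2`.

(1) Let `𝒦` be a family of finite sets of indices.  There is a sequence `a 0 < a 1 < ⋯` of
nonnegative integers such that, for every set `I` of indices, deleting the elements `a i`, `i ∈ I`,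
from `A = {a 0, a 1, …}` leaves an asymptotic basis of order `h` exactly when `I ∈ 𝒦`, if and only
if `𝒦` is closed under passing to subsets.

(2) In particular, for every `r` with `1 ≤ r ≤ ∞` there is a set `A` such that, for every `S ⊆ A`,
the set `A \ S` is an asymptotic basis of order `h` exactly when `|S| < r`.  For finite `r ≥ 2` and
`h ≥ 3` this is the question; for `r = ∞` the removable sets are exactly the finite ones. -/
theorem result :
    (∀ h : ℕ, 2 ≤ h → ∀ 𝒦 : Set (Set ℕ), (∀ I ∈ 𝒦, I.Finite) →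
      ((∃ a : ℕ → ℕ, StrictMono a ∧
          ∀ I : Set ℕ, IsAsymptoticBasis h (Set.range a \ a '' I) ↔ I ∈ 𝒦) ↔
        ∀ I ∈ 𝒦, ∀ J ⊆ I, J ∈ 𝒦)) ∧
    (∀ h : ℕ, 2 ≤ h → ∀ r : ℕ∞, 1 ≤ r →
      ∃ A : Set ℕ, ∀ S ⊆ A, (IsAsymptoticBasis h (A \ S) ↔ S.encard < r)) := by
  have key : ∀ h : ℕ, 2 ≤ h → ∀ 𝒦 : Set (Set ℕ), (∀ I ∈ 𝒦, I.Finite) →
      (∀ I ∈ 𝒦, ∀ J ⊆ I, J ∈ 𝒦) → ∃ a : ℕ → ℕ, StrictMono a ∧
          ∀ I : Set ℕ, IsAsymptoticBasis h (Set.range a \ a '' I) ↔ I ∈ 𝒦 := by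
    intro h hh 𝒦 hfin hher
    obtain ⟨a, ha, hI⟩ := Pool.Agent.Y973.RM.hereditary h hh 𝒦 hfin hher
    refine ⟨a, ha, fun I => ?_⟩
    rw [← set_eq a ha I]
    exact hI I
  refine ⟨?_, ?_⟩
  · intro h hh 𝒦 hfin
    constructor
    · rintro ⟨a, _, hI⟩ I hIK J hJI
      rw [← hI J]
      refine mono ?_ ((hI I).2 hIK)
      exact Set.diff_subset_diff_right (Set.image_mono hJI)
    · exact key h hh 𝒦 hfin
  · intro h hh r _
    have h1 : ∀ I ∈ {I : Set ℕ | I.encard < r}, I.Finite := by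
      intro I hI
      rw [← Set.encard_lt_top_iff]
      exact lt_of_lt_of_le hI le_top
    have h2 : ∀ I ∈ {I : Set ℕ | I.encard < r}, ∀ J ⊆ I, J ∈ {I : Set ℕ | I.encard < r} := by
      intro I hI J hJ
      exact lt_of_le_of_lt (Set.encard_le_encard hJ) hI
    obtain ⟨a, ha, hI⟩ := key h hh {I : Set ℕ | I.encard < r} h1 h2
    refine ⟨Set.range a, fun S hS => ?_⟩
    have h3 : a '' (a ⁻¹' S) = S := by
      rw [Set.image_preimage_eq_iff]
      exact hS
    have h4 := hI (a ⁻¹' S)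
    rw [h3] at h4
    rw [h4]
    show (a ⁻¹' S).encard < r ↔ S.encard < r
    rw [← ha.injective.encard_image (a ⁻¹' S), h3]

end Pool.Agent.Results.MP_f804be_nt.HereditaryRemovable
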